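import Mathlib

/-! Compact and countable groups: two abstract lemmas. -/

namespace Pool.Agent.ZCy.F

open Filter
open scoped Classical

/-- uniform limits along an ultrafilter force a finite quotient -/
theorem cnt_fin {Z : Type} [AddCommGroup Z] (H K : AddSubgroup Z)
    (h : ∀ z : ℕ → Z, (∀ n, z n ∈ H) → ∃ z₀, ∀ᶠ n in hyperfilter ℕ, z n - z₀ ∈ K) :
    ∃ R : Set Z, R.Finite ∧ ∀ z ∈ H, ∃ ρ ∈ R, z - ρ ∈ K := by
  have hf : ((QuotientAddGroup.mk : Z → Z ⧸ K) '' H).Finite := by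
    by_contra e
    let f := Set.Infinite.natEmbedding _ e
    choose z h1 h2 using fun n => (f n).2
    obtain ⟨z₀, h0⟩ := h z h1
    refine (Set.finite_singleton (QuotientAddGroup.mk z₀ : Z ⧸ K)).preimage
      (f := fun n => (f n).1) (Subtype.val_injective.comp f.injective).injOn |>.notMem_hyperfilter
      (h0.mono fun n hn => ?_)
    change (f n).1 = _
    rw [← h2 n]
    exact QuotientAddGroup.eq_iff_sub_mem.2 hn
  refine ⟨Quotient.out '' _, hf.image _, fun z hz => ⟨_, ⟨_, ⟨z, hz, rfl⟩, rfl⟩, ?_⟩⟩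
  exact QuotientAddGroup.eq_iff_sub_mem.1 (QuotientAddGroup.out_eq' _).symm

/-- in a compact countable group zero is isolated -/
theorem cnt_iso {Z V : Type} [AddCommGroup Z] (D : AddSubgroup Z) (K : V → AddSubgroup Z)
    (hl : ∀ d : ℕ → Z, (∀ n, d n ∈ D) → ∃ d₀ ∈ D, ∀ v, ∀ᶠ n in hyperfilter ℕ, d n - d₀ ∈ K v)
    {C : Set Z} (hC : C.Countable) (hc : ∀ d ∈ D, ∃ c ∈ C, ∀ v, d - c ∈ K v) :
    ∃ S : Finset V, ∀ d ∈ D, (∀ v ∈ S, d ∈ K v) → ∀ v, d ∈ K v := by
  by_contra hn
  have h0 : ∀ S : Finset V, ∃ e ∈ D, (∀ v ∈ S, e ∈ K v) ∧ ∃ v, e ∉ K v := fun S => by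
    by_contra e
    refine hn ⟨S, fun d hd h v => by_contra fun e' => e ⟨d, hd, h, v, e'⟩⟩
  choose e e1 e2 w e3 using h0
  obtain ⟨c, rfl⟩ := hC.exists_eq_range ((hc 0 D.zero_mem).imp fun _ h => h.1)
  let p : ℕ → Finset V × Z := fun n => Nat.rec (∅, 0) (fun n q =>
    (insert (w q.1) q.1, if q.2 - c n ∈ K (w q.1) then q.2 + e q.1 else q.2)) n
  have p1 : ∀ n, (p (n + 1)).1 = insert (w (p n).1) (p n).1 := fun _ => rfl
  have p2 : ∀ n, (p (n + 1)).2 =
      if (p n).2 - c n ∈ K (w (p n).1) then (p n).2 + e (p n).1 else (p n).2 := fun _ => rfl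
  have a1 : ∀ n, (p n).2 ∈ D := fun n => by
    induction n with
    | zero => exact D.zero_mem
    | succ n ih =>
      rw [p2]
      split_ifs
      · exact D.add_mem ih (e1 _)
      · exact ih
  have a2 : ∀ n m, n + 1 ≤ m → w (p n).1 ∈ (p m).1 ∧ (p m).2 - (p (n + 1)).2 ∈ K (w (p n).1) :=
    fun n m hm => by
      induction m, hm using Nat.le_induction with
      | base => exact ⟨Finset.mem_insert_self _ _, by rw [sub_self]; exact zero_mem _⟩
      | succ m _ ih =>
        refine ⟨Finset.mem_insert_of_mem ih.1, ?_⟩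
        rw [p2 m]
        split_ifs
        · rw [add_sub_right_comm]
          exact add_mem ih.2 (e2 _ _ ih.1)
        · exact ih.2
  have a3 : ∀ n, (p (n + 1)).2 - c n ∉ K (w (p n).1) := fun n h => by
    rw [p2] at h
    split_ifs at h with h1
    · refine e3 (p n).1 ?_
      have := sub_mem h h1
      rwa [sub_sub_sub_cancel_right, add_sub_cancel_left] at this
    · exact h1 h
  obtain ⟨d₀, hd, h1⟩ := hl (fun n => (p n).2) a1
  obtain ⟨_, ⟨n, rfl⟩, h2⟩ := hc d₀ hd
  obtain ⟨m, h3, h4⟩ := ((h1 (w (p n).1)).and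
    ((eventually_ge_atTop (n + 1)).filter_mono Nat.hyperfilter_le_atTop)).exists
  refine a3 n ?_
  have := sub_mem (add_mem h3 (h2 _)) (a2 n m h4).2
  rwa [sub_add_sub_cancel, sub_sub_sub_cancel_left] at this

/-- a formal sum whose weighted class sums vanish is killed by class functions -/
theorem cnt_cls {P B : Type} [AddCommGroup B] (r : Setoid P) (u : P →₀ ℤ) (w : P → ℤ) (f : P → B)
    (hw : ∀ x, w x ≠ 0) (h1 : ∀ x y, r x y → w x = w y) (h2 : ∀ x y, r x y → f x = f y)
    (h : ∀ y, (u.sum fun x n => if r x y then n * w x else 0) = 0) :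
    (u.sum fun x n => n • f x) = 0 := by
  have e : u.mapDomain (Quotient.mk r) = 0 := by
    ext q
    obtain ⟨y, rfl⟩ := Quotient.exists_rep q
    refine (mul_eq_zero.1 (Eq.trans ?_ (h y))).resolve_right (hw y)
    rw [Finsupp.mapDomain, Finsupp.sum_apply, Finsupp.sum_mul]
    refine Finsupp.sum_congr fun x _ => ?_
    rw [Finsupp.single_apply]
    by_cases hx : r x y
    · rw [if_pos hx, if_pos (Quotient.sound hx), h1 x y hx]
    · rw [if_neg hx, if_neg fun e => hx (Quotient.exact e), zero_mul]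
  have e2 := Finsupp.sum_mapDomain_index (f := Quotient.mk r) (s := u)
    (h := fun q n => n • Quotient.lift f h2 q) (fun _ => zero_zsmul _) fun _ _ _ => add_zsmul _ _ _
  rw [e, Finsupp.sum_zero_index] at e2
  exact e2.symm

end Pool.Agent.ZCy.F
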