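import Pool.Agent.Lib.MP_72c364_ag.SE.CntA
import Pool.Agent.Lib.MP_72c364_ag.ZQ.Main

/-! Local cycles modulo the cycles that no class of bounded order detects. -/

namespace Pool.Agent.ZCy.F

open Pool.Agent.ZFN Pool.Agent.ZFy.U Uw Module Filter Topology
open scoped Classical

variable {k K : Type} [Field k] [Field K] [Algebra k K] {X : Var k} {l n r : ℕ}

variable (X K) in
/-- geometric points above the same closed point -/
def cnjS : Setoid (X.Pt (Cb K)) where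
  r x y := ∃ (s : Cb K →ₐ[K] Cb K) (c : Cb K), c ≠ 0 ∧ ∀ i, y.1 i = c * s (x.1 i)
  iseqv := by
    refine ⟨fun x => ⟨AlgHom.id _ _, 1, one_ne_zero, fun i => (one_mul _).symm⟩, ?_, ?_⟩
    · rintro x y ⟨s, c, hc, h⟩
      let σ := AlgEquiv.ofBijective s (Algebra.IsAlgebraic.algHom_bijective s)
      refine ⟨σ.symm, σ.symm c⁻¹, (map_ne_zero _).2 (inv_ne_zero hc), fun i => σ.injective ?_⟩
      change s (x.1 i) = σ (σ.symm c⁻¹ * σ.symm (y.1 i))
      rw [map_mul, σ.apply_symm_apply, σ.apply_symm_apply, h, inv_mul_cancel_left₀ hc]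
    · rintro x y z ⟨s, c, hc, h⟩ ⟨t, d, hd, h'⟩
      exact ⟨t.comp s, d * t c, mul_ne_zero hd ((map_ne_zero _).2 hc), fun i => by
        rw [h', h, map_mul, mul_assoc]; rfl⟩

theorem cnj_res {x y : X.Pt (Cb K)} (h : cnjS K X x y) : ∃ (σ : Cb K ≃ₐ[K] Cb K) (c : Cb K),
    c ≠ 0 ∧ y.1 = c • (σ ∘ x.1) ∧ c ∈ (Var.res x).map σ ∧ Var.res y = (Var.res x).map σ := by
  obtain ⟨s, c, hc, h⟩ := h
  let σ := AlgEquiv.ofBijective s (Algebra.IsAlgebraic.algHom_bijective s)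
  have h1 : ∀ i, σ (x.1 i) ∈ (Var.res x).map σ := fun i => ⟨_, pt_mem_res x i, rfl⟩
  have h2 : c ∈ (Var.res x).map σ := by
    obtain ⟨i, hi⟩ := y.2.1
    rw [eq_inv_of_mul_eq_one_left ((h i).symm.trans hi)]
    exact inv_mem (h1 i)
  refine ⟨σ, c, hc, funext h, h2, le_antisymm (IntermediateField.adjoin_le_iff.2 ?_) ?_⟩
  · rintro _ ⟨i, rfl⟩
    rw [h]
    exact mul_mem h2 (h1 i)
  · rw [IntermediateField.map_le_iff_le_comap]
    refine IntermediateField.adjoin_le_iff.2 ?_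
    rintro _ ⟨i, rfl⟩
    obtain ⟨m, hm⟩ := x.2.1
    have h3 : c ∈ Var.res y := by
      have := pt_mem_res y m
      rwa [h, hm, map_one, mul_one] at this
    have h4 := mul_mem (inv_mem h3) (pt_mem_res y i)
    rw [h, inv_mul_cancel_left₀ hc] at h4
    exact h4

variable (X) in
/-- the pairing as a homomorphism -/
noncomputable def prBH (X' : Gen K X.N) (a : BR X'.F) : X.Cyc K →+ BR K :=
  AddMonoidHom.mk' (fun z => prB X' z a) fun z z' => prB_add z z' a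

theorem prB_sub (X' : Gen K X.N) (a : BR X'.F) (z z' : X.Cyc K) :
    prB X' (z - z') a = prB X' z a - prB X' z' a := map_sub (prBH X X' a) z z'

theorem prB_sub_iff {X' : Gen K X.N} {a : BR X'.F} {z z' : X.Cyc K} :
    prB X' (z - z') a = 0 ↔ prB X' z a = prB X' z' a := by
  rw [prB_sub]
  exact sub_eq_zero (G := BR K)

variable (X K l r) in
/-- the cycles that are orthogonal to all classes killed by `l ^ r` -/
def Nul : AddSubgroup (X.Cyc K) where
  carrier := {d | ∀ X' : Gen K X.N, X.IsBC X' → ∀ a ∈ X'.var.Bw, l ^ r • a = 0 → prB X' d a = 0}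
  zero_mem' := fun X' _ a _ _ => (prBH X X' a).map_zero
  add_mem' := fun h1 h2 X' h a ha hr =>
    (prB_add _ _ a).trans (by rw [h1 X' h a ha hr, h2 X' h a ha hr]; exact add_zero (0 : BR K))
  neg_mem' := fun h1 X' h a ha hr =>
    (map_neg (prBH X X' a) _).trans (neg_eq_zero.2 (h1 X' h a ha hr))

variable [Infinite k]

theorem nul_mult (hE : EV) (hX : X.Nice n) (hn : 1 ≤ n) {z z' : X.Cyc K}
    (h : ∀ y, Var.mult z (Cb K) y = Var.mult z' (Cb K) y) : z - z' ∈ Nul K X l r := by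
  intro X' hb a ha _
  have : Infinite K := .of_injective _ (algebraMap k K).injective
  have E := hE K _ n (bc_nice hX hn hb) hn
  refine cnt_cls (cnjS K X) (z - z') (fun x => Field.finInsepDegree K (Var.res x))
    (fun x => X'.var.ptv a (Var.res x) x.1) (fun x => ?_) (fun x y e => ?_) (fun x y e => ?_)
    fun y => ?_
  · have := pt_fin x
    exact Int.natCast_ne_zero.2 (NeZero.ne _)
  · obtain ⟨σ, -, -, -, -, e⟩ := cnj_res e
    rw [e]
    exact congrArg _ (Field.finInsepDegree_eq_of_equiv K _ _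
      (IntermediateField.intermediateFieldMap σ (Var.res x)))
  · obtain ⟨σ, c, h0, h1, h2, e⟩ := cnj_res e
    have h3 : X'.var.On x.1 := (bc_on hb).2 (pt_on x)
    have h4 : X'.var.On (σ ∘ x.1) := (Uw.on_map (X := X'.var) (σ : Cb K →ₐ[K] Cb K)).2 h3
    have h5 : ∀ i, (σ ∘ x.1) i ∈ (Var.res x).map σ := fun i => ⟨_, pt_mem_res x i, rfl⟩
    have h6 := ptv_smul (X := X'.var) E ha h5 h4 h2 h0
    have h7 := ptv_gal (X := X'.var) E ha (pt_mem_res x) h3 σ
    rw [e, h1]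
    exact (h6.trans h7).symm
  · rw [Finsupp.sum_sub_index fun x m m' => by split_ifs <;> simp [sub_mul]]
    exact sub_eq_zero.2 (h y.1)

theorem nul_of (hE : EV) (hX : X.Nice n) (hn : 1 ≤ n) {X' : Gen K X.N} (h : X.IsBC X')
    {d : X.Cyc K} (H : ∀ a ∈ X'.var.Bw, l ^ r • a = 0 → prB X' d a = 0) : d ∈ Nul K X l r := by
  intro X'' h'' a ha hr
  have : Infinite K := .of_injective _ (algebraMap k K).injective
  obtain ⟨b, h3, h4, h5⟩ := res_rpr (X := X''.var) (Y := X')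
    (hE K _ n (bc_nice hX hn h'') hn) (hE K _ n (bc_nice hX hn h) hn)
    (X''.var.IK_self.trans (bc_I (X' := X'') (X'' := X') h'' h)).le ha
  rw [prB_raw, ← h5 _ fun x hx => (bc_on h).2 (raw_on d hx), ← prB_raw]
  exact H b h3 (h4 _ hr)

theorem nul_pr (hE : EV) (hX : X.Nice n) (hn : 1 ≤ n) {d : X.Cyc K} (h : d ∈ Nul K X l r)
    {a : BR X.F} (ha : a ∈ X.Bw) (hr : l ^ r • a = 0) : Var.pr d a = 0 := by
  have : Infinite K := .of_injective _ (algebraMap k K).injective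
  obtain ⟨X', hX', hb⟩ := bc_exists hX hn K
  obtain ⟨b, h2, h3, h4⟩ := res_rpr (hE k X n hX hn) (hE _ _ n hX' hn) (bc_sub hb) ha
  rw [pr_raw, ← h4 _ fun x hx => (bc_on hb).2 (raw_on d hx), ← prB_raw]
  exact h X' hb b h2 (h3 _ hr)

/-- limits of cycles of degree zero on a curve, uniformly in the classes of bounded order -/
theorem real_u (h2 : WR) (A : EvApi X) {C : Gen k X.N} (hC : C.var.Nice 1) (hs : X.Sub C)
    {ν : AbsoluteValue (Cb K) ℝ} (hν : LocAbv K ν) {y : C.var.Cyc K} (hy : Var.deg y = 1)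
    {ι : Type} (U : Ultrafilter ι) {z : ι → C.var.Cyc K} (hz : ∀ i, Var.deg (z i) = 0) :
    ∃ z₀ : C.var.Cyc K, Var.deg z₀ = 0 ∧ ∀ M : ℕ, (M : K) ≠ 0 → ∀ᶠ i in U,
      ∀ a ∈ X.Bw, M • a = 0 → X.prG (z i) a = X.prG z₀ a := by
  let := ν.toNormedField
  have := hν.2
  obtain ⟨w, hw, h⟩ := (crv_of hC K).real (cyc_mem y) ((cyc_snd y).trans hy) U
    (z := fun i => Uw.cyc _ K (z i)) fun i => mem_azero.2 ⟨cyc_mem _, (cyc_snd _).trans (hz i)⟩
  obtain ⟨z₀, rfl⟩ := cyc_surj hw.1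
  refine ⟨z₀, (cyc_snd z₀).symm.trans hw.2, fun M hM => ?_⟩
  have hM' : (M : Cb K) ≠ 0 := by
    rwa [← map_natCast (algebraMap K (Cb K)), _root_.map_ne_zero]
  refine (h _ (QuotientAddGroup.mk' (ZeroCyc.mulS M (Azero (Cb K) (C.var.JK K))))
    fun L v₀ hL hv => ?_).mono fun i e a ha h0 => ?_
  · filter_upwards [(charts_of hC le_rfl K).uld L hv hM'] with v h4 h5
    exact QuotientAddGroup.eq_iff_sub_mem.2 (AddSubgroup.map_mono GD_le (h4 h5))
  · obtain ⟨w, hw', e'⟩ := QuotientAddGroup.eq_iff_sub_mem.1 e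
    obtain ⟨u, rfl⟩ := cyc_surj hw'.1
    obtain ⟨B, _, χ, φ, hχ, -, hc⟩ := exists_rep K h2 A hs ha
    have e1 := congrArg φ (show M • Uw.cyc C.var K u = _ from e')
    rw [map_nsmul, map_sub, hc, hc, hc, ← map_nsmul, ← prG_nsmul A hs ha, h0, prG_zero A hs,
      map_zero, eq_comm, sub_eq_zero] at e1
    exact hχ e1

variable (X K l) in
/-- the cycles of degree zero form a compact group -/
def Cpt : Prop := ∀ z : ℕ → X.Cyc K, (∀ i, Var.deg (z i) = 0) → ∃ z₀, Var.deg z₀ = 0 ∧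
  ∀ r, ∀ᶠ i in hyperfilter ℕ, z i - z₀ ∈ Nul K X l r

theorem cpt_loc (h1 : EV) (h2 : WR) (h3 : LCA) (hX : X.Nice n) (hn : 1 ≤ n)
    {ν : AbsoluteValue (Cb K) ℝ} (hν : LocAbv K ν)
    {j : BR K →+ AddCircle (1 : ℚ)} (hj : Function.Injective j) (hl : 0 < l) (hk : (l : k) ≠ 0)
    {C : Gen k X.N} (hC : C.var.Nice 1) (hs : X.Sub C)
    (hg : ∀ X' C' : Gen K X.N, X.IsBC X' → C.var.IsBC C' → X'.var.Nice n →
      (∃ m₀ : ℕ, ∀ m, m₀ ≤ m → ∃ (L : IntermediateField K (Cb K)) (x : Fin (X.N + 1) → Cb K),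
        FiniteDimensional K L ∧ finrank K L = m ∧ (∀ i, x i ∈ L) ∧ C'.var.On x) ∧
      ∀ a ∈ X'.var.Bw, Prim l a →
        (Kills X'.var K a fun x => C'.var.On x) → Kills X'.var K a fun x => X'.var.On x) :
    Cpt K X l := by
  intro z hz
  have : Infinite K := .of_injective _ (algebraMap k K).injective
  obtain ⟨X', hX', h⟩ := bc_exists hX hn K
  obtain ⟨C', hC', h'⟩ := bc_exists hC le_rfl K
  have E := h1 K _ n hX' hn
  have hs' := bc_subG h h' hs
  obtain ⟨h4, h5⟩ := hg X' C' h h' hX'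
  choose z' hz' using fun i =>
    exists_mv (X := X'.var) (Z := slf X) (fun x hx => (bc_on h).2 hx) (z i)
  choose y e1 e2 using fun i =>
    duall (X := X'.var) (C := C') h1 h2 h3 hX' hn hν hj hC' hs' h4 hl h5 (z' i)
  obtain ⟨y₁, hy₁⟩ : ∃ y : C'.var.Cyc K, Var.deg y = 1 := by
    obtain ⟨m, hm⟩ := h4
    obtain ⟨L, x, _, a1, a2, a3⟩ := hm m le_rfl
    obtain ⟨L', x', _, b1, b2, b3⟩ := hm (m + 1) m.le_succ
    obtain ⟨y, e, -⟩ := ptc E hs' a2 a3
    obtain ⟨y', e', -⟩ := ptc E hs' b2 b3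
    exact ⟨y' - y, by rw [← degH_apply, map_sub, degH_apply, degH_apply, e, e', a1, b1]; simp⟩
  obtain ⟨y₀, d0, h6⟩ := real_u (X := X'.var) (C := C') h2 E hC' hs' hν hy₁ (hyperfilter ℕ) (z := y)
    fun i => (e1 i).trans ((deg_raw (X := X'.var) (Z := slf X) (hz' i)).trans (hz i))
  obtain ⟨z₀, h0⟩ := exists_mv (X := X) (Z := C') (fun x hx => (bc_on h).1 (hs' _ x hx)) y₀
  refine ⟨z₀, (deg_raw h0).trans d0, fun r => (h6 (l ^ r) ?_).mono fun i hi =>
    nul_of h1 hX hn h fun a ha hr => ?_⟩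
  · rw [Nat.cast_pow]
    exact pow_ne_zero _ fun e => hk ((algebraMap k K).injective (by rw [map_natCast, e, map_zero]))
  · rw [prB_sub_iff, prB_raw, prB_raw, h0]
    exact ((congrArg (rpr X'.var · a) (hz' i)).symm.trans (pr_raw (z' i) a).symm).trans
      ((e2 i a ha ⟨r, hr⟩).symm.trans ((hi a ha hr).trans (prG_raw (X := X'.var) (C := C') y₀ a)))

end Pool.Agent.ZCy.F
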