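import Pool.Agent.Lib.MP_72c364_ag.SE.Defs
import Pool.Agent.Lib.MP_879916_ag.SS.Step3
import Pool.Agent.Lib.MP_879916_ag.SS.ZHil

/-! Approximation at a set of places: the reduction to surfaces. -/

namespace Pool.Agent.ZCy.F

open Pool.Agent.ZFN Pool.Agent.ZFy Pool.Agent.ZFy.U Uw Module Filter MvPolynomial
open scoped Classical Topology

theorem se_abs {A V : Type} [AddCommGroup A] {Z : V → Type} [∀ v, AddCommGroup (Z v)]
    (d : ∀ v, Z v →+ ℤ) (π : ∀ v, Z v →+ A →+ AddCircle (1 : ℚ))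
    (p : V → A →+ AddCircle (1 : ℚ)) (hA : ∀ a : A, ∃ N : ℕ, 0 < N ∧ N • a = 0) (T : Finset V)
    (hR : ∀ v ∈ T, ∀ (ι : Type) (U : Ultrafilter ι) (z : ι → Z v), (∀ i, d v (z i) = 0) →
      ∃ z₀, d v z₀ = 0 ∧ ∀ a, ∀ᶠ i in U, π v (z i) a = π v z₀ a)
    (h : ∀ a, (∀ v ∈ T, ∀ z, d v z = 0 → π v z a = 0) → ∑ᶠ v, p v a = 0) :
    ∃ z : ∀ v, Z v, (∀ v, d v (z v) = 0) ∧ (∀ v ∉ T, z v = 0) ∧
      ∀ a, ∑ᶠ v, (p v a - π v (z v) a) = 0 := by
  obtain ⟨z, h1, h2⟩ := glue_abs d (fun v => if v ∈ T then π v else 0) p hA T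
    (fun v hv => by simpa only [if_pos hv] using hR v hv)
    fun a ha => h a fun v hv => by simpa only [if_pos hv] using ha v hv
  refine ⟨fun v => if v ∈ T then z v else 0, fun v => ?_, fun v hv => if_neg hv, fun a =>
    (finsum_congr fun v => ?_).trans (h2 a)⟩ <;> by_cases hv : v ∈ T <;> simp [hv, h1]

attribute [local instance] Place.field Place.alg

theorem se_glue (h1 : EV) (h2 : WR) (h3 : LCA) {k : Type} [Field k] (F₀ : Type) [Field F₀]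
    [Finite F₀] [Algebra (RatFunc F₀) k] [FiniteDimensional (RatFunc F₀) k] {Y : Var k} {n : ℕ}
    (hY : Y.Nice n) (hn : 1 ≤ n) {l : ℕ}
    {j : ∀ v : Place k, BR v.K →+ AddCircle (1 : ℚ)} (hj : ∀ v, Function.Injective (j v))
    {C : Gen k Y.N} (hC : C.var.Nice 1) (hs : Y.Sub C) (T : Finset (Place k))
    (hp : ∀ v ∈ T, ∃ y : C.var.Cyc v.K, Var.deg y = 1) (y : ∀ v : Place k, Y.Cyc v.K)
    (h : ∀ a ∈ Y.Bw, Prim l a → (∀ v ∈ T, Kills Y v.K a fun x => C.var.On x) →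
      ∑ᶠ v, j v (Var.pr (y v) a) = 0) :
    ∃ δ : ∀ v : Place k, Y.Cyc v.K, (∀ v, Var.deg (δ v) = 0) ∧ (∀ v ∉ T, δ v = 0) ∧
      OrthW Y l j fun v => y v - δ v := by
  have : Infinite k :=
    .of_injective _ ((algebraMap (RatFunc F₀) k).injective.comp (RatFunc.algebraMap_injective F₀))
  have E := h1 k Y n hY hn
  let P : AddSubgroup (BR Y.F) :=
    { carrier := {a | a ∈ Y.Bw ∧ Prim l a}
      zero_mem' := ⟨zero_mem _, 0, nsmul_zero _⟩
      add_mem' := fun ha hb => ⟨add_mem ha.1 hb.1, glue_add ha.2 hb.2⟩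
      neg_mem' := fun ha => ⟨neg_mem ha.1, glue_neg ha.2⟩ }
  let q : ∀ {C : Gen k Y.N}, Y.Sub C → ∀ v : Place k, C.var.Cyc v.K →+ P →+ AddCircle (1 : ℚ) :=
    fun hs v => AddMonoidHom.mk' (fun z => AddMonoidHom.mk' (fun a => j v (Y.prG z a.1)) fun a b =>
      (congrArg (j v) (prG_add' E hs a.2.1 b.2.1 z)).trans ((j v).map_add _ _))
      fun z z' => AddMonoidHom.ext fun a =>
        (congrArg (j v) (prG_add z z' a.1)).trans ((j v).map_add _ _)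
  obtain ⟨z, z1, z0, z2⟩ := se_abs (A := P) (Z := fun v : Place k => C.var.Cyc v.K)
    (fun v => degH _ _) (q hs) (fun v => q sub_slf v (y v))
    (fun a => (exists_torsion a.1).imp fun N hN => ⟨hN.1, Subtype.ext hN.2⟩) T
    (fun v hv ι U z hz => by
      obtain ⟨ν, hν⟩ := nu_thm k F₀ v
      exact (real_of h1 h2 h3 k Y n hY hn C hC hs v.K ν hν.1 (hp v hv) ι U z hz).imp
        fun z₀ h0 => ⟨h0.1, fun a => (h0.2 a a.2.1).mono fun i hi => congrArg (j v) hi⟩)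
    fun a ha => h a a.2.1 a.2.2 fun v hv => (kills_iff E hs a.2.1).2 fun z hz =>
      hj v ((ha v hv z hz).trans (j v).map_zero.symm)
  have z5 : ∀ v : Place k, ∃ z' : Y.Cyc v.K, (Var.deg z' = Var.deg (z v) ∧
      ∀ a, Var.pr z' a = Y.prG (z v) a) ∧ (v ∉ T → z' = 0) := fun v => by
    by_cases hv : v ∈ T
    · exact (push hs (z v)).imp fun _ h => ⟨h, fun e => absurd hv e⟩
    · rw [z0 v hv]
      exact ⟨0, ⟨rfl, fun _ => rfl⟩, fun _ => rfl⟩
  choose z' z3 z4 using z5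
  refine ⟨z', fun v => (z3 v).1.trans (z1 v), z4, fun a ha hp =>
    (finsum_congr fun v => ?_).trans (z2 ⟨a, ha, hp⟩)⟩
  refine eq_sub_of_add_eq (((j v).map_add _ _).symm.trans (congrArg (j v) ?_))
  rw [← (z3 v).2]
  exact (prG_add (C := slf Y) (y v - z' v) (z' v) a).symm.trans (by rw [sub_add_cancel])

variable {k : Type} [Field k] {X : Var k} {l n : ℕ}
  {j : ∀ v : Place k, BR v.K →+ AddCircle (1 : ℚ)} {A S : Set (Place k)}

variable (l A S) in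
/-- `z₀` approximates `z` at the places of `A` up to cycles of degree zero that vanish on `S` -/
def ApD (r : ℕ) (z₀ : X.Cyc k) (z : ∀ v : Place k, X.Cyc v.K) : Prop :=
  ∀ v ∈ A, ∃ z' δ : X.Cyc v.K, Var.IsExt z₀ z' ∧ Var.deg δ = 0 ∧ (v ∈ S → raw X δ = 0) ∧
    ∀ X' : Gen v.K X.N, X.IsBC X' → ∀ a ∈ X'.var.Bw, l ^ r • a = 0 →
      prB X' z' a = prB X' (z v) a + prB X' δ a

variable (X l j A S) in
/-- working version of `Var.ElOn`, up to cycles of degree zero that vanish on `S` -/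
def ElD : Prop := ∀ z : ∀ v : Place k, X.Cyc v.K, OrthW X l j z → ∀ r : ℕ, ∃ z₀, ApD l A S r z₀ z

theorem se_push [Infinite k] (hX : X.Nice n) (hn : 1 ≤ n) {Y : Gen k X.N} {m r : ℕ}
    (hY : Y.var.Nice m) (hm : 1 ≤ m) (hs : X.I ⊆ Y.var.I) {z : ∀ v : Place k, X.Cyc v.K}
    {y : ∀ v : Place k, Y.var.Cyc v.K} (hy : ∀ v, Rep l (y v) (z v)) {w : Y.var.Cyc k}
    (hw : ApD l A S r w y) : ∃ z₀, ApD l A S r z₀ z := by
  obtain ⟨z₀, h0⟩ := exists_mv (X := X) (Z := Y) (K := k)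
    (fun x hx => ⟨hx.1, fun G hG => hx.2 G (hs hG)⟩) w
  refine ⟨z₀, fun v hv => ?_⟩
  have : Infinite v.K := .of_injective _ (algebraMap k v.K).injective
  obtain ⟨w', δ, h1, d1, d2, h2⟩ := hw v hv
  obtain ⟨z', h3⟩ := exists_mv (X := X) (Z := Y) (K := v.K)
    (fun x hx => ⟨hx.1, fun G hG => hx.2 G (hs hG)⟩) w'
  obtain ⟨δ', d3⟩ := exists_mv (X := X) (Z := Y) (K := v.K)
    (fun x hx => ⟨hx.1, fun G hG => hx.2 G (hs hG)⟩) δ
  refine ⟨z', δ', fun x => ((mult_raw h3 _ x).trans (h1 x)).trans (mult_raw h0 _ x).symm,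
    (deg_raw d3).trans d1, fun e => d3.trans (d2 e), fun X' hb a ha hr => ?_⟩
  obtain ⟨Y', hY', hb'⟩ := bc_exists hY hm v.K
  have e := bc_le hb hb' hs
  obtain ⟨b, h4, h5, h6⟩ := res_rpr (X := X'.var) (Y := Y')
    (ev_thm _ _ n (bc_nice hX hn hb) hn) (ev_thm _ _ _ hY' hm) (X'.var.IK_self.le.trans e) ha
  have h7 := h2 Y' hb' b h4 (h5 _ hr)
  rw [prB_raw, prB_raw, prB_raw, h6 _ fun x hx => (bc_on (X := Y.var) hb').2 (raw_on w' hx),
    h6 _ fun x hx => (bc_on (X := Y.var) hb').2 (raw_on (y v) hx),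
    h6 _ fun x hx => (bc_on (X := Y.var) hb').2 (raw_on δ hx)] at h7
  rw [prB_raw, prB_raw, prB_raw, h3, d3, h7]
  exact congrArg (· + _) ((hy v).2 X' hb a ha ⟨r, hr⟩)

theorem se_ind {P : Var k → Prop} {m : ℕ} (hP : ∀ (X : Var k) (n : ℕ), m < n → X.Nice n →
      (∀ Y : Gen k X.N, X.I ⊆ Y.var.I → Y.var.Nice (n - 1) → P Y.var) → P X) (hn : m < n)
    (hX : X.Nice n) (h : ∀ Y : Gen k X.N, X.I ⊆ Y.var.I → Y.var.Nice m → P Y.var) : P X := by
  induction n, hn using Nat.le_induction generalizing X with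
  | base => exact hP X _ m.lt_succ_self hX h
  | succ n hn ih =>
    exact hP X _ (by omega) hX fun Y hs hY => ih hY fun Z hs' hZ => h Z (hs.trans hs') hZ

theorem se_of [Infinite k] (hX : X.Nice n) (hn : 1 ≤ n) (j : Invs k) (h : X.ElOn l j A) :
    ElD X l (fun v => (j.fin v).comp (frW _ _)) A S := fun z hz r => by
  obtain ⟨z₀, h0⟩ := h z ((orth_iff (ev_thm k X n hX hn) j z).2 hz) r
  refine ⟨z₀, fun v hv => ?_⟩
  obtain ⟨z', h1, h2⟩ := h0 v hv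
  refine ⟨z', 0, h1, rfl, fun _ => Finsupp.mapDomain_zero, fun X' h a ha hr => ?_⟩
  have : Infinite v.K := Infinite.of_injective _ (algebraMap k v.K).injective
  have E := ev_thm v.K X'.var n (bc_nice hX hn h) hn
  exact ((frW_bij v.K (AlgebraicClosure v.K)).1 ((pairB_frW h E ha z').symm.trans
    ((h2 X' h _ ((mem_BrX E _).2 ⟨a, ha, rfl⟩) ((frW_pow r a).2 hr)).trans
      (pairB_frW h E ha _)))).trans (add_zero _).symm

theorem se_to [Infinite k] (hX : X.Nice n) (hn : 1 ≤ n) (j : Invs k)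
    (hS : ∀ v ∈ A, v ∉ S → X.Flat l v.K) (h : ElD X l (fun v => (j.fin v).comp (frW _ _)) A S) :
    X.ElOn l j A := fun z hz r => by
  obtain ⟨z₀, h0⟩ := h z ((orth_iff (ev_thm k X n hX hn) j z).1 hz) r
  refine ⟨z₀, fun v hv => ?_⟩
  obtain ⟨z', δ, h1, d1, d2, h2⟩ := h0 v hv
  refine ⟨z', h1, fun X' h α hα hr => ?_⟩
  have : Infinite v.K := Infinite.of_injective _ (algebraMap k v.K).injective
  have E := ev_thm v.K X'.var n (bc_nice hX hn h) hn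
  obtain ⟨a, ha, rfl⟩ := (mem_BrX E _).1 hα
  have e : prB X' δ a = 0 := by
    by_cases hv' : v ∈ S
    · rw [prB_raw, d2 hv']
      exact Finsupp.sum_zero_index
    · exact (frW_bij v.K (AlgebraicClosure v.K)).1 (((pairB_frW h E ha δ).symm.trans
        (hS v hv hv' δ d1 X' h _ hα ⟨r, hr⟩)).trans (frW _ _).map_zero.symm)
  exact (pairB_frW h E ha z').trans ((congrArg _ ((h2 X' h a ha ((frW_pow r a).1 hr)).trans
    ((congrArg (prB X' (z v) a + ·) e).trans (add_zero (prB X' (z v) a))))).trans (pairB_frW h E ha _).symm)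

variable (hL : LEFs) (F₀ : Type) [Field F₀] [Finite F₀] [Algebra (RatFunc F₀) k]
  [FiniteDimensional (RatFunc F₀) k] (hl : l.Prime) (hk : (l : k) ≠ 0)

include F₀ hl hk

theorem se_four (hj : ∀ v, Function.Injective (j v)) (hn : 4 ≤ n) (hX : X.Nice n)
    (h : ∀ Y : Gen k X.N, X.I ⊆ Y.var.I → Y.var.Nice (n - 1) → ElD Y.var l j A S) :
    ElD X l j A S := by
  intro z hz r
  have : Infinite k :=
    .of_injective _ ((algebraMap (RatFunc F₀) k).injective.comp (RatFunc.algebraMap_injective F₀))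
  obtain ⟨Y, hY, hs, hL, hy⟩ := q_step q_hyp F₀ hl hk hj hn hX z
  choose y hy using hy
  obtain ⟨w, hw⟩ := h Y hs hY y (q_orth ev_thm hX (by omega) hs hL hy hz) r
  exact se_push hX (by omega) hY (by omega) hs hy hw

include hL

theorem se_step (S₀ : Finset (Place k)) (hj : ∀ v, Function.Injective (j v)) (hX : X.Nice 3)
    (z : ∀ v : Place k, X.Cyc v.K) :
    ∃ (Y : Gen k X.N) (T : Finset (Place k)) (C : Gen k X.N), Y.var.Nice 2 ∧ X.I ⊆ Y.var.I ∧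
      C.var.Nice 1 ∧ Y.var.Sub C ∧ Disjoint S₀ T ∧ (∀ v ∈ T, ∃ y : C.var.Cyc v.K, Var.deg y = 1) ∧
      (∀ a ∈ Y.var.Bw, Prim l a → (∀ v ∈ T, Kills Y.var v.K a fun x => C.var.On x) →
        ∃ b, X.Mt Y a b ∧ Prim l b) ∧ ∀ v, ∃ y : Y.var.Cyc v.K, Rep l y (z v) := by
  have : Infinite k :=
    .of_injective _ ((algebraMap (RatFunc F₀) k).injective.comp (RatFunc.algebraMap_injective F₀))
  have := place_nonempty (k := k) F₀
  have H := q_hyp
  have hσ' : Fintype.card (Option Unit) + 1 = 3 := rfl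
  have hn' : 1 ≤ 3 := by omega
  choose ν hν using nu_thm k F₀
  obtain ⟨d₂, hC⟩ := cMain3_of irrp k (Place k) (fun v => v.1) (fun v => v.K) place_ne_top
    place_wapx X hX _ (jok0 X)
  obtain ⟨d₄, hZ⟩ := zex_thm k X 3 hX _ hσ' _ (jok0 X)
  obtain ⟨d₅, e1, e2⟩ := bc_deg k d₄
  obtain ⟨c₀, Φ₀, z₀, -⟩ := hZ d₅ e1 e2
  have hG : ∀ c Φ, X.ZCh (J0 k X.N) c Φ → ∀ᶠ v : Place k in cofinite,
      X.GoodV (σ := Option Unit) c Φ v.1.toSubring := fun c Φ hc =>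
    gdv_thm k X 3 hX _ hσ' _ _ (fun v : Place k => v.1.toSubring) (place_fs F₀) c Φ hc.sm hc.Φ0
      hc.Ψ0 hc.dp
  obtain ⟨S, hS⟩ : ∃ S : Finset (Place k), ∀ v ∉ S, X.GoodV c₀ Φ₀ v.1.toSubring :=
    ⟨(hG _ _ z₀).toFinset, fun v hv => by_contra fun e => hv ((Set.Finite.mem_toFinset _).2 e)⟩
  choose T hT using fun v : Place k => loc_bad H.ev H.wr H.lc hX hn' (hν v).1 hk (z v)
  choose d₃ hd using fun v : Place k => form0 hX hσ' (hν v) (T v)
  obtain ⟨d, e3, e4⟩ := bc_deg k (d₂ + S.sup d₃ + c₀.d)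
  have hf : ∀ v : Place k, ∃ (fv : Option Unit → Fm X.N v.K)
      (W : Option Unit → Set ((Fin (X.N + 1) →₀ ℕ) → v.K)), v ∈ S →
      (∀ i, (J0 k X.N).VanK d v.K (fv i) ∧ W i ∈ 𝓝 (cf (fv i))) ∧
      ∀ (C : Gen k X.N) (g : Option Unit → Fm X.N k), X.Cut C g →
        (∀ i, (J0 k X.N).Van d (g i)) → (∀ i, cf (map (algebraMap k v.K) (g i)) ∈ W i) →
          (T v).Hit (ν v) fun x => C.var.On x := fun v => by
    by_cases hv : v ∈ S
    · have := Finset.le_sup (f := d₃) hv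
      obtain ⟨fv, W, h⟩ := hd v d (by omega)
      exact ⟨fv, W, fun _ => h⟩
    · exact ⟨0, fun _ => ∅, fun h => absurd h hv⟩
  choose fv W hfv using hf
  obtain ⟨c, c', Φ, L, L', Y, c'', 𝒯, hc, ⟨hLf, hD⟩, hGd, int, lin, sm, hY, sec, hyp, sm', hC⟩ :=
    hC _ hG (fun c Φ T a => LfS X l c Φ T a ∧ Disjoint S₀ T)
      (fun c Φ h => (hL k F₀ X hX l hl hk _ c Φ h).off S₀) c₀ Φ₀ z₀ S hS d (by omega) (by omega) e4
      fv W fun v hv => (hfv v hv).1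
  have hs : SecS X 𝒯 c c' Φ L L' Y c'' := ⟨int, lin, sm, hY, sec, hyp, sm'⟩
  obtain ⟨C₀, n₀, u₀⟩ := fib_thm irrp k X 3 hX _ hσ' c Φ hc.sm hc.Φ0
  refine ⟨Y, 𝒯, C₀, hY, fun G hG => ⟨hG.1, ((sec _ _).1 Y.var.on_g).1.2 G hG⟩, n₀, hs.sub u₀, hD,
    fun v hv => ?_, fun a => st3_lift F₀ hl hk hX hs hGd hLf u₀, fun v => ?_⟩
  · obtain ⟨X', hX', h⟩ := bc_exists hX hn' v.K
    obtain ⟨C', -, h'⟩ := bc_exists n₀ le_rfl v.K
    obtain ⟨m, hm⟩ := (good_bc H.th F₀ hσ' (e := 0) (hGd v hv) u₀ (fun i m => by simp) h h' hX').1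
    obtain ⟨M, x, _, a1, a2, a3⟩ := hm m le_rfl
    obtain ⟨M', x', _, b1, b2, b3⟩ := hm (m + 1) m.le_succ
    have E := H.ev k _ 2 hY one_le_two
    obtain ⟨y, e, -⟩ := ptc E (hs.sub u₀) a2 ((bc_on (X := C₀.var) h').1 a3)
    obtain ⟨y', e', -⟩ := ptc E (hs.sub u₀) b2 ((bc_on (X := C₀.var) h').1 b3)
    exact ⟨y' - y, by rw [← degH_apply, map_sub, degH_apply, degH_apply, e, e', a1, b1]; simp⟩
  obtain ⟨C, g, c1, c2, c3, c4, c5, c6⟩ := hC v
  have sX : X.Sub C := fun M _ _ x hx => ((c2 M x).1 hx).1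
  obtain ⟨y, h1, h2⟩ : ∃ y : C.var.Cyc v.K, Rep l y (z v) := by
    by_cases hv : v ∈ S
    · exact hT v C c1 sX ((hfv v hv).2 C g c2 c3 (c5 hv))
    · obtain ⟨cb, Φb, -, -, a3, e, a4⟩ := c6 hv
      exact loc_good H.ev H.wr H.lc hX hn' (hν v).1 (hj v) hl.pos c1 sX (fun X' C' h h' hX' =>
        (good_bc H.th F₀ hσ' a3 c2 a4 h h' hX').imp_right fun h3 => h3 l hk) (z v)
  obtain ⟨y', hy⟩ := exists_mv (X := Y.var) (Z := C) (fun x hx => c4 _ x hx) y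
  exact ⟨y', (deg_raw hy).trans h1, fun X' h a ha hp => by rw [hy]; exact h2 X' h a ha hp⟩

theorem se_three (hS : S.Finite) (hj : ∀ v, Function.Injective (j v)) (hX : X.Nice 3)
    (h : ∀ Y : Gen k X.N, X.I ⊆ Y.var.I → Y.var.Nice 2 → ElD Y.var l j A S) : ElD X l j A S := by
  intro z hz r
  have : Infinite k :=
    .of_injective _ ((algebraMap (RatFunc F₀) k).injective.comp (RatFunc.algebraMap_injective F₀))
  obtain ⟨Y, T, C, hY, hs, hC, hs', hD, hp, hl', hy⟩ := se_step hL F₀ hl hk hS.toFinset hj hX z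
  choose y hy using hy
  obtain ⟨δ, h1, h2, h3⟩ := se_glue ev_thm wr lca_thm F₀ hY one_le_two hj hC hs' T hp y
    fun a ha hp hK => (hl' a ha hp hK).elim fun b hb =>
      st3_orth ev_thm hX (by omega) hs hy hz hb.1 hb.2
  obtain ⟨w, hw⟩ := h Y hs hY _ h3 r
  refine se_push hX (by omega) hY one_le_two hs hy (w := w) fun v hv => ?_
  obtain ⟨w', δ', e1, e2, e3, e4⟩ := hw v hv
  refine ⟨w', δ' - δ v, e1, ?_, fun e => ?_, fun Y' hb a ha hr => ?_⟩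
  · rw [← degH_apply, map_sub, degH_apply, degH_apply, e2, h1, sub_zero]
  · rw [h2 v (Finset.disjoint_left.1 hD (hS.mem_toFinset.2 e)), sub_zero, e3 e]
  · rw [e4 Y' hb a ha hr, ← prB_add, ← prB_add, sub_add_eq_add_sub, add_sub_assoc]

theorem se_main (j : Invs k) {m : ℕ} (hm : 2 ≤ m) (hn : m < n) (hX : X.Nice n)
    (hA : 3 ≤ m ∨ {v | v ∈ A ∧ ¬X.Flat l v.K}.Finite)
    (h : ∀ Y : Gen k X.N, X.I ⊆ Y.var.I → Y.var.Nice m → Y.var.ElOn l j A) : X.ElOn l j A := by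
  have : Infinite k :=
    .of_injective _ ((algebraMap (RatFunc F₀) k).injective.comp (RatFunc.algebraMap_injective F₀))
  refine se_to hX (by omega) j (S := {v | v ∈ A ∧ ¬X.Flat l v.K})
    (fun v hv e => by_contra fun e' => e ⟨hv, e'⟩) (se_ind (P := fun Z => ElD Z l _ A _)
      (fun Z n' h1 h2 h3 => ?_) hn hX fun Y hs hY => se_of hY (by omega) j (h Y hs hY))
  by_cases h4 : 4 ≤ n'
  · exact se_four F₀ hl hk (frW_inj j) h4 h2 h3
  · obtain rfl : n' = 3 := by omega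
    exact se_three hL F₀ hl hk (hA.resolve_left (by omega)) (frW_inj j) h2 h3

end Pool.Agent.ZCy.F
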