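import Pool.Agent.Lib.MP_72c364_ag.SE.CntB
import Pool.Agent.Lib.MP_72c364_ag.SE.Main
import Pool.Agent.Lib.MP_751085_ag.ZF.E.S6
import Pool.Agent.Lib.MP_751085_ag.ZF.H.Glue

/-! The reduction to surfaces at every set of places. -/

namespace Pool.Agent.ZCy.F

open Pool.Agent.ZFN Pool.Agent.ZFy Pool.Agent.ZFy.U Uw Module Filter MvPolynomial
open scoped Classical Topology

attribute [local instance] Place.field Place.alg

variable {k : Type} [Field k] {X : Var k} {l n r : ℕ}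
  {j : ∀ v : Place k, BR v.K →+ AddCircle (1 : ℚ)} {A : Set (Place k)}

theorem raw_sub {K : Type} [Field K] [Algebra k K] (z z' : X.Cyc K) :
    raw X (z - z') = raw X z - raw X z' :=
  map_sub (Finsupp.mapDomain.addMonoidHom fun p : X.Pt (Cb K) => p.1) z z'

variable (j) in
/-- the local invariant of the pairing -/
noncomputable def jH (v : Place k) (a : BR X.F) : X.Cyc v.K →+ AddCircle (1 : ℚ) :=
  (j v).comp (prH v.K (slf X) a)

variable (F₀ : Type) [Field F₀] [Finite F₀] [Algebra (RatFunc F₀) k]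
  [FiniteDimensional (RatFunc F₀) k]

include F₀

theorem cnt_k : Countable k := by
  have h1 : Countable (Polynomial F₀) := Cardinal.mk_le_aleph0_iff.1
    (Polynomial.cardinalMk_le_max.trans (max_le (Cardinal.mk_le_aleph0_iff.2 inferInstance) le_rfl))
  have h2 : Countable (RatFunc F₀) := Function.Surjective.countable
    (f := fun p : Polynomial F₀ × Polynomial F₀ =>
      algebraMap _ (RatFunc F₀) p.1 / algebraMap _ (RatFunc F₀) p.2)
    fun x => ⟨(x.num, x.denom), x.num_div_denom⟩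
  exact Cardinal.mk_le_aleph0_iff.1 ((Algebra.IsAlgebraic.cardinalMk_le_max (RatFunc F₀) k).trans
    (max_le (Cardinal.mk_le_aleph0_iff.2 h2) le_rfl))

theorem cnt_cyc : Countable (X.Cyc k) := by
  have := cnt_k (k := k) F₀
  have : Countable (Cb k) := Cardinal.mk_le_aleph0_iff.1
    ((Algebra.IsAlgebraic.cardinalMk_le_max k (Cb k)).trans
      (max_le (Cardinal.mk_le_aleph0_iff.2 this) le_rfl))
  have : Countable (X.Pt (Cb k)) := Subtype.countable
  infer_instance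

theorem cnt_place : Countable (Place k) := by
  have := cnt_k (k := k) F₀
  refine Set.countable_univ_iff.1 ((Set.countable_iUnion fun a : k =>
    Set.Finite.countable (s := {v : Place k | a ∈ v.1}ᶜ) (place_fs F₀ a)).mono fun v _ => ?_)
  by_contra e
  exact place_ne_top v (eq_top_iff.2 fun a _ => by_contra fun h => e (Set.mem_iUnion.2 ⟨a, h⟩))

theorem jH_fin (E : EvApi X) {a : BR X.F} (ha : a ∈ X.Bw) :
    ∃ S : Finset (Place k), ∀ v ∉ S, ∀ z, jH j v a z = 0 := by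
  obtain ⟨S, hS, h⟩ := prG_aa (aaa_thm k F₀ X E) ha
  exact ⟨hS.toFinset, fun v hv z => (congrArg (j v)
    (h v (fun e => hv (hS.mem_toFinset.2 e)) _ sub_slf z)).trans (map_zero (j v))⟩

theorem jH_sub (E : EvApi X) {a : BR X.F} (ha : a ∈ X.Bw) (z z' : ∀ v : Place k, X.Cyc v.K) :
    ∑ᶠ v, jH j v a (z v - z' v) = ∑ᶠ v, jH j v a (z v) - ∑ᶠ v, jH j v a (z' v) := by
  obtain ⟨S, h⟩ := jH_fin (j := j) F₀ E ha
  rw [← finsum_sub_distrib (S.finite_toSet.subset fun v hv => by_contra fun e => hv (h v e _))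
    (S.finite_toSet.subset fun v hv => by_contra fun e => hv (h v e _))]
  exact finsum_congr fun v => map_sub _ _ _

variable (hl : l.Prime) (hk : (l : k) ≠ 0) (hj : ∀ v, Function.Injective (j v))

include hl hk hj

theorem cpt_ae (hX : X.Nice 3) : ∃ S : Finset (Place k), ∀ v ∉ S, Cpt v.K X l := by
  have : Infinite k :=
    .of_injective _ ((algebraMap (RatFunc F₀) k).injective.comp (RatFunc.algebraMap_injective F₀))
  have H := q_hyp
  have hσ' : Fintype.card (Option Unit) + 1 = 3 := rfl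
  obtain ⟨d₄, hZ⟩ := zex_thm k X 3 hX _ hσ' _ (jok0 X)
  obtain ⟨d₅, e1, e2⟩ := bc_deg k d₄
  obtain ⟨c, Φ, hc, -⟩ := hZ d₅ e1 e2
  have hG : ∀ᶠ v : Place k in cofinite, X.GoodV (σ := Option Unit) c Φ v.1.toSubring :=
    gdv_thm k X 3 hX _ hσ' _ _ (fun v : Place k => v.1.toSubring) (place_fs F₀) c Φ hc.sm hc.Φ0
      hc.Ψ0 hc.dp
  obtain ⟨C, n₀, u₀⟩ := fib_thm irrp k X 3 hX _ hσ' c Φ hc.sm hc.Φ0
  refine ⟨hG.toFinset, fun v hv => ?_⟩
  obtain ⟨ν, hν⟩ := nu_thm k F₀ v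
  exact cpt_loc H.ev H.wr H.lc hX (by omega) hν.1 (hj v) hl.pos hk n₀
    (fun M _ _ x hx => ((u₀ M x).1 hx).1) fun X' C' h h' hX' =>
      (good_bc H.th F₀ hσ' (e := 0) (by_contra fun e => hv ((Set.Finite.mem_toFinset _).2 e)) u₀
        (fun i m => by simp) h h' hX').imp_right fun h3 => h3 l hk

/-- approximation up to an orthogonal family of degree zero with finite support -/
theorem cnt_step (hL : LEFs) (hX : X.Nice 3)
    (h : ∀ Y : Gen k X.N, X.I ⊆ Y.var.I → Y.var.Nice 2 → ElD Y.var l j A Set.univ)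
    (S : Finset (Place k)) (z : ∀ v : Place k, X.Cyc v.K) (hz : OrthW X l j z) (r : ℕ) :
    ∃ (z₀ : X.Cyc k) (δ : ∀ v : Place k, X.Cyc v.K) (T : Finset (Place k)), Disjoint S T ∧
      (∀ v ∉ T, δ v = 0) ∧ (∀ v, Var.deg (δ v) = 0) ∧ OrthW X l j δ ∧
      ∀ v ∈ A, ∃ z', Var.IsExt z₀ z' ∧ z' - (z v - δ v) ∈ Nul v.K X l r := by
  have : Infinite k :=
    .of_injective _ ((algebraMap (RatFunc F₀) k).injective.comp (RatFunc.algebraMap_injective F₀))
  obtain ⟨Y, T, C, hY, hs, hC, hs', hD, hp, hl', hy⟩ := se_step hL F₀ hl hk S hj hX z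
  choose y hy using hy
  have EX := ev_thm k X 3 hX (by omega)
  have EY := ev_thm k Y.var 2 hY one_le_two
  obtain ⟨δ, h1, h2, h3⟩ := se_glue ev_thm wr lca_thm F₀ hY one_le_two hj hC hs' T hp y
    fun a ha hp hK => (hl' a ha hp hK).elim fun b hb =>
      st3_orth ev_thm hX (by omega) hs hy hz hb.1 hb.2
  obtain ⟨w, hw⟩ := h Y hs hY _ h3 r
  have hm : ∀ v : Place k, ∀ u : Y.var.Cyc v.K, ∃ u' : X.Cyc v.K, raw X u' = raw Y.var u :=
    fun v => exists_mv (X := X) (Z := Y) fun x hx => ⟨hx.1, fun G hG => hx.2 G (hs hG)⟩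
  have h4 : ∀ v : Place k, ∃ u : X.Cyc v.K, raw X u = raw Y.var (δ v) ∧ (v ∉ T → u = 0) :=
    fun v => by
      by_cases hv : v ∈ T
      · exact (hm v (δ v)).imp fun _ e => ⟨e, fun e' => absurd hv e'⟩
      · exact ⟨0, by rw [h2 v hv]; exact Finsupp.mapDomain_zero.trans Finsupp.mapDomain_zero.symm,
          fun _ => rfl⟩
  choose δ' h5 h6 using h4
  have h7 : ∀ v, Var.deg (δ' v) = 0 := fun v => (deg_raw (h5 v)).trans (h1 v)
  obtain ⟨z₀, h0⟩ := se_push (z := fun v => z v - δ' v) hX (by omega) hY one_le_two hs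
    (fun v => ⟨by
      rw [← degH_apply, ← degH_apply, map_sub, map_sub, degH_apply, degH_apply, degH_apply,
        degH_apply, h1, h7, (hy v).1], fun X' hb a ha hp => by
      obtain ⟨u, hu⟩ := hm v (y v)
      rw [raw_sub, ← hu, ← h5, ← raw_sub, ← prB_raw, ← prB_raw, prB_sub, prB_sub, prB_raw X' u, hu,
        (hy v).2 X' hb a ha hp, ← prB_raw]⟩) hw
  refine ⟨z₀, δ', T, hD, h6, h7, fun b hb ⟨s, hs2⟩ => ?_, fun v hv => ?_⟩
  · obtain ⟨a, ha, h8, h9⟩ := res_cls (K := k) EX EY (X.IK_self.le.trans hs) hb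
    have e1 : ∑ᶠ v, jH j v a (y v) = 0 :=
      st3_orth ev_thm hX (by omega) hs hy hz ⟨ha, hb, fun M _ _ x hx => h9 M x hx⟩ ⟨s, hs2⟩
    have e2 : ∑ᶠ v, jH j v a (y v - δ v) = 0 := h3 a ha ⟨s, h8 _ hs2⟩
    rw [jH_sub F₀ EY ha, e1, zero_sub, neg_eq_zero] at e2
    refine (finsum_congr fun v => congrArg (j v) ?_).trans e2
    rw [pr_raw, h5]
    exact (rpr_congr (X := X) (Y := Y) (fun L w hw => h9 L w hw)
      fun x hx => raw_on (δ v) hx).symm.trans (pr_raw (δ v) a).symm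
  · obtain ⟨z', e, a1, -, a3, a4⟩ := h0 v hv
    refine ⟨z', a1, fun X' hb a ha hr => prB_sub_iff.2 ((a4 X' hb a ha hr).trans ?_)⟩
    rw [prB_raw X' e, a3 trivial]
    exact add_zero (M := BR v.K) _

theorem cnt_three (hL : LEFs) (hX : X.Nice 3)
    (h : ∀ Y : Gen k X.N, X.I ⊆ Y.var.I → Y.var.Nice 2 → ElD Y.var l j A Set.univ) :
    ElD X l j A Set.univ := by
  intro z hz r
  have : Infinite k :=
    .of_injective _ ((algebraMap (RatFunc F₀) k).injective.comp (RatFunc.algebraMap_injective F₀))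
  have := cnt_cyc (X := X) F₀
  have := cnt_place (k := k) F₀
  have h13 : 1 ≤ 3 := by omega
  have E := ev_thm k X 3 hX h13
  obtain ⟨S₀, hS⟩ := cpt_ae F₀ hl hk hj hX
  have hsub : ∀ {d d' : ∀ v : Place k, X.Cyc v.K}, OrthW X l j d → OrthW X l j d' →
      OrthW X l j (d - d') := fun h1 h2 a ha hp =>
    (jH_sub F₀ E ha _ _).trans (sub_eq_zero.2 ((h1 a ha hp).trans (h2 a ha hp).symm))
  let D : AddSubgroup (∀ v : Place k, X.Cyc v.K) := AddSubgroup.ofSub
    {d | (∀ v, Var.deg (d v) = 0) ∧ (∀ v ∈ S₀, d v = 0) ∧ OrthW X l j d}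
    ⟨0, fun _ => rfl, fun _ _ => rfl, fun a _ _ => finsum_eq_zero_of_forall_eq_zero
      fun v => map_zero (jH j v a)⟩
    fun d h1 d' h2 => by
      rw [← sub_eq_add_neg]
      exact ⟨fun v => (map_sub (degH X v.K) _ _).trans (sub_eq_zero.2 ((h1.1 v).trans (h2.1 v).symm)),
        fun v hv => sub_eq_zero.2 ((h1.2.1 v hv).trans (h2.2.1 v hv).symm), hsub h1.2.2 h2.2.2⟩
  let Kv : A → AddSubgroup (∀ v : Place k, X.Cyc v.K) := fun v =>
    (Nul v.1.K X l r).comap (Pi.evalAddMonoidHom (fun v : Place k => X.Cyc v.K) v.1)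
  have hR : ∀ v : Place k, ∃ R : Set (X.Cyc v.K), R.Finite ∧
      (v ∉ S₀ → ∀ u, Var.deg u = 0 → ∃ ρ ∈ R, u - ρ ∈ Nul v.K X l r) := fun v => by
    by_cases hv : v ∈ S₀
    · exact ⟨∅, Set.finite_empty, fun e => absurd hv e⟩
    · exact (cnt_fin (degH X v.K).ker (Nul v.K X l r) fun u hu =>
        (hS v hv u hu).imp fun _ e => e.2 r).imp fun R e => ⟨e.1, fun _ => e.2⟩
  choose R hR hR' using hR
  have := fun v => (hR v).to_subtype
  obtain ⟨S, h0⟩ := cnt_iso D Kv (fun d hd => by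
      have h1 : ∀ v : Place k, ∃ u : X.Cyc v.K, Var.deg u = 0 ∧ (v ∈ S₀ → u = 0) ∧
          ∀ s, ∀ᶠ i in hyperfilter ℕ, d i v - u ∈ Nul v.K X l s := fun v => by
        by_cases hv : v ∈ S₀
        · exact ⟨0, rfl, fun _ => rfl, fun s => .of_forall fun i => by
            rw [(hd i).2.1 v hv, sub_self]
            exact zero_mem _⟩
        · exact (hS v hv _ fun i => (hd i).1 v).imp fun _ e => ⟨e.1, fun e' => absurd e' hv, e.2⟩
      choose u h1 h2 h3 using h1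
      refine ⟨u, ⟨h1, h2, fun a ha ⟨s, hs⟩ => ?_⟩, fun v => h3 v.1 r⟩
      obtain ⟨T, hT⟩ := jH_fin (j := j) F₀ E ha
      obtain ⟨i, hi⟩ := ((T.eventually_all (p := fun v i => d i v - u v ∈ Nul v.K X l s)).2
        fun v _ => h3 v s).exists
      have e1 : ∑ᶠ v, jH j v a (d i v - u v) = 0 := finsum_eq_zero_of_forall_eq_zero fun v => by
        by_cases hv : v ∈ T
        · exact (congrArg (j v) (nul_pr ev_thm hX h13 (hi v hv) ha hs)).trans (map_zero (j v))
        · exact hT v hv _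
      have e2 : ∑ᶠ v, jH j v a (d i v) = 0 := (hd i).2.2 a ha ⟨s, hs⟩
      rwa [jH_sub F₀ E ha, e2, zero_sub, neg_eq_zero] at e1)
    (Set.countable_range fun p : X.Cyc k × Σ T : Finset (Place k), ∀ v : T, R v => fun v =>
      Classical.epsilon (Var.IsExt p.1) + if e : v ∈ p.2.1 then (p.2.2 ⟨v, e⟩).1 else 0)
    fun d hd => by
      obtain ⟨z₀, δ, T, a1, a2, a3, -, a5⟩ := cnt_step F₀ hl hk hj hL hX h S₀ d hd.2.2 r
      choose ρ b1 b2 using fun v : T => hR' v (Finset.disjoint_right.1 a1 v.2) (δ v) (a3 v)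
      refine ⟨_, ⟨(z₀, ⟨T, fun v => ⟨ρ v, b1 v⟩⟩), rfl⟩, fun v => ?_⟩
      obtain ⟨z', c1, c2⟩ := a5 v.1 v.2
      have c3 : z' - Classical.epsilon (Var.IsExt z₀) ∈ Nul v.1.K X l r :=
        nul_mult ev_thm hX h13 fun y => (c1 y).trans (Classical.epsilon_spec ⟨z', c1⟩ y).symm
      have c4 : δ v - (if e : v.1 ∈ T then ρ ⟨v, e⟩ else 0) ∈ Nul v.1.K X l r := by
        split_ifs with e
        · exact b2 ⟨v, e⟩
        · rw [a2 v e, sub_self]
          exact zero_mem _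
      have c5 := add_mem (sub_mem c3 c2) c4
      change d v - (Classical.epsilon (Var.IsExt z₀) + if e : v.1 ∈ T then ρ ⟨v, e⟩ else 0) ∈
        Nul v.1.K X l r
      exact (congrArg (· ∈ _) (by abel)).mp c5
  obtain ⟨z₀, δ, T, a1, a2, a3, a4, a5⟩ :=
    cnt_step F₀ hl hk hj hL hX h (S₀ ∪ S.image Subtype.val) z hz r
  have b1 : ∀ v ∈ S₀ ∪ S.image Subtype.val, δ v = 0 := fun v hv =>
    a2 v (Finset.disjoint_left.1 a1 hv)
  have b2 := h0 δ ⟨a3, fun v hv => b1 v (Finset.mem_union_left _ hv), a4⟩ fun v hv => by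
    change δ v ∈ Nul v.1.K X l r
    rw [b1 v (Finset.mem_union_right _ (Finset.mem_image_of_mem _ hv))]
    exact zero_mem _
  refine ⟨z₀, fun v hv => ?_⟩
  obtain ⟨z', c1, c2⟩ := a5 v hv
  have c3 : z' - z v ∈ Nul v.K X l r :=
    (congrArg (· ∈ _) (by abel)).mp (sub_mem c2 (show δ v ∈ Nul v.K X l r from b2 ⟨v, hv⟩))
  exact ⟨z', 0, c1, rfl, fun _ => Finsupp.mapDomain_zero, fun X' hb a ha hr =>
    (prB_sub_iff.1 (c3 X' hb a ha hr)).trans (add_zero (M := BR v.K) _).symm⟩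

omit hj in
theorem cnt_main (hL : LEFs) (j : Invs k) {m : ℕ} (hm : 2 ≤ m) (hn : m < n) (hX : X.Nice n)
    (h : ∀ Y : Gen k X.N, X.I ⊆ Y.var.I → Y.var.Nice m → Y.var.ElOn l j A) : X.ElOn l j A := by
  have : Infinite k :=
    .of_injective _ ((algebraMap (RatFunc F₀) k).injective.comp (RatFunc.algebraMap_injective F₀))
  refine se_to hX (by omega) j (S := Set.univ) (fun v _ e => absurd trivial e)
    (se_ind (P := fun Z => ElD Z l _ A _)
      (fun Z n' h1 h2 h3 => ?_) hn hX fun Y hs hY => se_of hY (by omega) j (h Y hs hY))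
  by_cases h4 : 4 ≤ n'
  · exact se_four F₀ hl hk (frW_inj j) h4 h2 h3
  · obtain rfl : n' = 3 := by omega
    exact cnt_three F₀ hl hk (frW_inj j) hL h2 h3

end Pool.Agent.ZCy.F
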