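import Pool.Agent.Lib.MP_72c364_ag.ZQ.Defs

/-! Approximation of local zero-cycles at a set of places. -/

namespace Pool.Agent.ZCy

attribute [local instance] bsGroup bsMonoid bsAddZero bsZero bsSMul Place.field Place.alg

variable {k : Type} [Field k] (X : Var k)

/-- a family of local cycles orthogonal to the `l`-primary part of the Brauer group is
approximated, at all places of `A`, by global cycles against all local classes killed by `l ^ r` -/
def Var.ElOn (l : ℕ) (j : Invs k) (A : Set (Place k)) : Prop :=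
  ∀ z : ∀ v : Place k, X.Cyc v.K, Var.Orth l j z → ∀ r : ℕ, ∃ z₀ : X.Cyc k, ∀ v ∈ A,
    Var.Apx l r z₀ (z v)

/-- the cycles of degree zero on `X_K` are orthogonal to the `l`-primary part of `Br (X_K)` -/
def Var.Flat (l : ℕ) (K : Type) [Field K] [Algebra k K] : Prop :=
  ∀ z : X.Cyc K, Var.deg z = 0 → ∀ X' : Gen K X.N, X.IsBC X' → ∀ α ∈ X'.var.BrX,
    (∃ r : ℕ, (l : ℤ) ^ r • α = 0) → Var.pairB X' z α = 0

end Pool.Agent.ZCy
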